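import Mathlib

/-!
# The two inequalities of the chain argument for Lorenz links

`q` is the square root of `ρ = ‖t‖`, `c k = ‖1 - t ^ k‖`.
-/

set_option autoImplicit false

namespace Pool.Agent.Helper80.LZ

open Finset

/-- `n (p - q) ≤ p ^ n - q ^ n` for `p q = 1` -/
theorem pow_sub_ge {p q : ℝ} (hp : 0 < p) (hq : 0 < q) (hpq : p * q = 1) (hqp : q ≤ p) (n : ℕ) :
    n * (p - q) ≤ p ^ n - q ^ n := by
  have two_le : ∀ x y : ℝ, 0 < x → 0 < y → x * y = 1 → 2 ≤ x + y := by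
    intro x y hx hy h
    nlinarith [sq_nonneg (x - y), sq_nonneg (x + y - 2)]
  induction n with
  | zero => simp
  | succ n ih =>
    have h1 := two_le p q hp hq hpq
    have h2 := two_le (p ^ n) (q ^ n) (by positivity) (by positivity) (by rw [← mul_pow, hpq, one_pow])
    have h3 : 0 ≤ p ^ n - q ^ n := sub_nonneg.2 (pow_le_pow_left₀ hq.le hqp n)
    have h4 : 0 ≤ p - q := sub_nonneg.2 hqp
    have h5 : p ^ (n + 1) - q ^ (n + 1) = ((p ^ n - q ^ n) * (p + q) + (p ^ n + q ^ n) * (p - q)) / 2 := by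
      ring
    rw [h5]
    push_cast
    nlinarith [mul_nonneg h3 (sub_nonneg.2 h1), mul_nonneg h4 (sub_nonneg.2 h2)]

/-- `1 - x ^ n ≤ n (1 - x)` -/
theorem one_sub_pow_le {x : ℝ} (h0 : 0 ≤ x) (h1 : x ≤ 1) (n : ℕ) : 1 - x ^ n ≤ n * (1 - x) := by
  induction n with
  | zero => simp
  | succ n ih =>
    have h2 : x ^ n ≤ 1 := pow_le_one₀ h0 h1
    rw [pow_succ]
    push_cast
    nlinarith [mul_nonneg (sub_nonneg.2 h2) (sub_nonneg.2 h1)]

/-- powers of a unit number: distance from `1` -/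
theorem norm_pow_sub_one_le {w : ℂ} (hw : ‖w‖ = 1) (n : ℕ) : ‖w ^ n - 1‖ ≤ n * ‖w - 1‖ := by
  induction n with
  | zero => simp
  | succ n ih =>
    have h1 : w ^ (n + 1) - 1 = w * (w ^ n - 1) + (w - 1) := by ring
    rw [h1]
    push_cast
    calc ‖w * (w ^ n - 1) + (w - 1)‖ ≤ ‖w * (w ^ n - 1)‖ + ‖w - 1‖ := norm_add_le _ _
      _ = ‖w ^ n - 1‖ + ‖w - 1‖ := by rw [norm_mul, hw, one_mul]
      _ ≤ _ := by linarith

theorem unit_re_im {w : ℂ} (hw : ‖w‖ = 1) : w.re ^ 2 + w.im ^ 2 = 1 := by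
  have h := Complex.sq_norm w
  rw [hw, Complex.normSq_apply] at h
  linarith

theorem sq_norm_sub_one (z : ℂ) : ‖z - 1‖ ^ 2 = (z.re - 1) ^ 2 + z.im ^ 2 := by
  rw [Complex.sq_norm, Complex.normSq_apply]
  simp
  ring

/-- the real part of a power -/
theorem re_pow_ge {w : ℂ} (hw : ‖w‖ = 1) (n : ℕ) : 1 - n ^ 2 * (1 - w.re) ≤ (w ^ n).re := by
  have h1 := norm_pow_sub_one_le hw n
  have h2 : ‖w ^ n‖ = 1 := by rw [norm_pow, hw, one_pow]
  have h3 := unit_re_im hw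
  have h4 := unit_re_im h2
  have h5 : ‖w ^ n - 1‖ ^ 2 ≤ (n * ‖w - 1‖) ^ 2 := pow_le_pow_left₀ (norm_nonneg _) h1 2
  rw [mul_pow, sq_norm_sub_one, sq_norm_sub_one] at h5
  nlinarith

/-- the imaginary part of a power -/
theorem im_pow_le {w : ℂ} (hw : ‖w‖ = 1) (n : ℕ) : |(w ^ n).im| ≤ n * |w.im| := by
  induction n with
  | zero => simp
  | succ n ih =>
    have h2 : ‖w ^ n‖ = 1 := by rw [norm_pow, hw, one_pow]
    have h3 : |w.re| ≤ 1 := by rw [← hw]; exact Complex.abs_re_le_norm w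
    have h4 : |(w ^ n).re| ≤ 1 := by rw [← h2]; exact Complex.abs_re_le_norm _
    rw [pow_succ, Complex.mul_im]
    push_cast
    calc |(w ^ n).re * w.im + (w ^ n).im * w.re| ≤ |(w ^ n).re * w.im| + |(w ^ n).im * w.re| :=
          abs_add_le _ _
      _ = |(w ^ n).re| * |w.im| + |(w ^ n).im| * |w.re| := by rw [abs_mul, abs_mul]
      _ ≤ 1 * |w.im| + |(w ^ n).im| * 1 := by
          refine add_le_add (mul_le_mul_of_nonneg_right h4 (abs_nonneg _))
            (mul_le_mul_of_nonneg_left h3 (abs_nonneg _))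
      _ ≤ _ := by linarith

end Pool.Agent.Helper80.LZ
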