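import Mathlib
import Pool.Agent.Helper80.LZ.Ineq

set_option autoImplicit false

namespace Pool.Agent.Helper80.LZ

open Finset

/-- the symmetric sum -/
noncomputable def US (τ : ℂ) (n : ℕ) : ℂ := ∑ k ∈ range (n + 1), τ ^ (2 * (k : ℤ) - n)

theorem sum_sq (n : ℕ) : ∑ k ∈ range (n + 1), (2 * (k : ℝ) - n) ^ 2 = (n : ℝ) * (n + 1) * (n + 2) / 3 := by
  have h : ∀ m : ℕ, ∀ x : ℝ, ∑ k ∈ range m, (2 * (k : ℝ) - x) ^ 2 =
      4 * (m * (m - 1) * (2 * m - 1) / 6) - 4 * x * (m * (m - 1) / 2) + m * x ^ 2 := by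
    intro m x
    induction m with
    | zero => simp
    | succ m ih =>
      rw [Finset.sum_range_succ, ih]
      push_cast
      ring
  rw [h]
  push_cast
  ring

theorem two_US (τ : ℂ) (n : ℕ) : 2 * US τ n =
    ∑ k ∈ range (n + 1), (τ ^ (2 * (k : ℤ) - n) + τ ^ (-(2 * (k : ℤ) - n))) := by
  have h1 : US τ n = ∑ k ∈ range (n + 1), τ ^ (-(2 * (k : ℤ) - n)) := by
    unfold US
    rw [← Finset.sum_range_reflect]
    refine Finset.sum_congr rfl fun k hk => ?_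
    have hk' := Finset.mem_range.mp hk
    congr 1
    have : ((n + 1 - 1 - k : ℕ) : ℤ) = n - k := by omega
    rw [this]
    ring
  rw [Finset.sum_add_distrib, ← h1]
  unfold US
  ring

section

variable {q s : ℝ} {w : ℂ}

/-- the symmetric pair of powers -/
theorem pair_nat (_hq0 : 0 < q) (hw : ‖w‖ = 1) (m : ℕ) :
    (((q : ℂ) * w) ^ (m : ℤ) + ((q : ℂ) * w) ^ (-(m : ℤ))).im = (q ^ m - (1 / q) ^ m) * (w ^ m).im ∧
    (((q : ℂ) * w) ^ (m : ℤ) + ((q : ℂ) * w) ^ (-(m : ℤ))).re = (q ^ m + (1 / q) ^ m) * (w ^ m).re := by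
  have h1 : ((q : ℂ) * w) ^ (m : ℤ) = ((q ^ m : ℝ) : ℂ) * w ^ m := by
    rw [zpow_natCast, mul_pow]
    push_cast
    ring
  have h2 : ‖w ^ m‖ = 1 := by rw [norm_pow, hw, one_pow]
  have h3 : (w ^ m)⁻¹ = starRingEnd ℂ (w ^ m) := by
    rw [Complex.inv_def, Complex.normSq_eq_norm_sq, h2]
    simp
  have h4 : ((q : ℂ) * w) ^ (-(m : ℤ)) = (((1 / q) ^ m : ℝ) : ℂ) * starRingEnd ℂ (w ^ m) := by
    rw [zpow_neg, h1, mul_inv, h3]
    congr 1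
    push_cast
    rw [one_div, inv_pow]
  rw [h1, h4]
  constructor
  · rw [Complex.add_im, Complex.im_ofReal_mul, Complex.im_ofReal_mul, Complex.conj_im]
    ring
  · rw [Complex.add_re, Complex.re_ofReal_mul, Complex.re_ofReal_mul, Complex.conj_re]
    ring

/-- the size of the imaginary part of a pair -/
theorem pair_im (hq0 : 0 < q) (hq1 : q < 1) (hw : ‖w‖ = 1) (hs0 : 0 < s) (m : ℕ)
    (hm : (1 / q) ^ m ≤ s) :
    |(((q : ℂ) * w) ^ (m : ℤ) + ((q : ℂ) * w) ^ (-(m : ℤ))).im| ≤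
      s * (1 - q ^ 2) * |w.im| * (m : ℝ) ^ 2 := by
  rw [(pair_nat hq0 hw m).1, abs_mul]
  have h1 := im_pow_le hw m
  have hp : 0 < (1 / q) ^ m := by positivity
  have h2 : |q ^ m - (1 / q) ^ m| ≤ s * (m * (1 - q ^ 2)) := by
    have e1 : q ^ m = (1 / q) ^ m * (q ^ 2) ^ m := by
      rw [← mul_pow]
      congr 1
      field_simp
    have h3 := one_sub_pow_le (x := q ^ 2) (by positivity) (by nlinarith) m
    have h4 : (q ^ 2) ^ m ≤ 1 := pow_le_one₀ (by positivity) (by nlinarith)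
    rw [e1]
    have e2 : (1 / q) ^ m * (q ^ 2) ^ m - (1 / q) ^ m = -((1 / q) ^ m * (1 - (q ^ 2) ^ m)) := by ring
    rw [e2, abs_neg, abs_of_nonneg (mul_nonneg hp.le (sub_nonneg.2 h4))]
    exact mul_le_mul hm h3 (sub_nonneg.2 h4) hs0.le
  have h5 : 0 ≤ s * (m * (1 - q ^ 2)) := (abs_nonneg _).trans h2
  calc |q ^ m - (1 / q) ^ m| * |(w ^ m).im| ≤ (s * (m * (1 - q ^ 2))) * (m * |w.im|) :=
        mul_le_mul h2 h1 (abs_nonneg _) h5
    _ = _ := by ring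

/-- the size of the real part of a pair -/
theorem pair_re (hq0 : 0 < q) (hw : ‖w‖ = 1) (m : ℕ) (hm : (m : ℝ) ^ 2 * (1 - w.re) ≤ 1) :
    2 * (1 - (m : ℝ) ^ 2 * (1 - w.re)) ≤
      (((q : ℂ) * w) ^ (m : ℤ) + ((q : ℂ) * w) ^ (-(m : ℤ))).re := by
  rw [(pair_nat hq0 hw m).2]
  have h1 := re_pow_ge hw m
  have h2 : 2 ≤ q ^ m + (1 / q) ^ m := by
    have e : q ^ m * (1 / q) ^ m = 1 := by
      rw [← mul_pow, mul_one_div_cancel hq0.ne', one_pow]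
    have p1 : 0 < q ^ m := by positivity
    have p2 : 0 < (1 / q) ^ m := by positivity
    nlinarith [sq_nonneg (q ^ m - (1 / q) ^ m), sq_nonneg (q ^ m + (1 / q) ^ m - 2)]
  nlinarith

/-- the same for all integers -/
theorem pair_im_int (hq0 : 0 < q) (hq1 : q < 1) (hw : ‖w‖ = 1) (hs0 : 0 < s) (e : ℤ)
    (hm : (1 / q) ^ e.natAbs ≤ s) :
    |(((q : ℂ) * w) ^ e + ((q : ℂ) * w) ^ (-e)).im| ≤ s * (1 - q ^ 2) * |w.im| * (e : ℝ) ^ 2 := by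
  have h := pair_im hq0 hq1 hw hs0 e.natAbs hm
  rcases Int.natAbs_eq e with he | he
  · rw [← he] at h
    have e1 : ((e.natAbs : ℕ) : ℝ) ^ 2 = (e : ℝ) ^ 2 := by
      rw [Nat.cast_natAbs, Int.cast_abs, sq_abs]
    rwa [e1] at h
  · have e1 : ((e.natAbs : ℕ) : ℝ) ^ 2 = (e : ℝ) ^ 2 := by
      rw [Nat.cast_natAbs, Int.cast_abs, sq_abs]
    have e2 : ((e.natAbs : ℕ) : ℤ) = -e := by omega
    rw [e1, e2, neg_neg] at h
    rwa [add_comm]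

theorem pair_re_int (hq0 : 0 < q) (hw : ‖w‖ = 1) (e : ℤ) (hm : (e : ℝ) ^ 2 * (1 - w.re) ≤ 1) :
    2 * (1 - (e : ℝ) ^ 2 * (1 - w.re)) ≤ (((q : ℂ) * w) ^ e + ((q : ℂ) * w) ^ (-e)).re := by
  have e1 : ((e.natAbs : ℕ) : ℝ) ^ 2 = (e : ℝ) ^ 2 := by
    rw [Nat.cast_natAbs, Int.cast_abs, sq_abs]
  have h := pair_re hq0 hw e.natAbs (by rw [e1]; exact hm)
  rw [e1] at h
  rcases Int.natAbs_eq e with he | he
  · rwa [← he] at h
  · have e2 : ((e.natAbs : ℕ) : ℤ) = -e := by omega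
    rw [e2, neg_neg] at h
    rwa [add_comm] at h

/-- **The bounds of the symmetric sum.** -/
theorem US_bounds (hq0 : 0 < q) (hq1 : q < 1) (hw : ‖w‖ = 1) (hs0 : 0 < s) (hs : s ^ 2 = 2)
    (hc : 0 ≤ w.re) (n : ℕ) (hn : (1 / q) ^ n ≤ s) (hσ : ((n : ℝ) + 1) ^ 2 * w.im ^ 2 ≤ 3 / 8) :
    4 * q * |(US ((q : ℂ) * w) n).im| ≤ (1 - q ^ 2) * (‖US ((q : ℂ) * w) n‖ ^ 2 - 1) ∧
      1 ≤ ‖US ((q : ℂ) * w) n‖ ^ 2 := by
  obtain ⟨U, hU⟩ : ∃ U, U = US ((q : ℂ) * w) n := ⟨_, rfl⟩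
  have h2 := two_US ((q : ℂ) * w) n
  rw [← hU] at h2 ⊢
  have hri := unit_re_im hw
  have hc1 : 1 - w.re ≤ w.im ^ 2 := by nlinarith
  have hc0 : 0 ≤ 1 - w.re := by nlinarith [sq_nonneg w.im]
  have hp1 : 1 ≤ 1 / q := by rw [le_div_iff₀ hq0]; linarith
  have he : ∀ k ∈ range (n + 1), (2 * (k : ℤ) - n).natAbs ≤ n := by
    intro k hk
    have := Finset.mem_range.mp hk
    omega
  have hcast : ∀ k : ℕ, ((2 * (k : ℤ) - n : ℤ) : ℝ) = 2 * (k : ℝ) - n := by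
    intro k; push_cast; ring
  have hN := sum_sq n
  have him : 2 * |U.im| ≤ s * (1 - q ^ 2) * |w.im| * ((n : ℝ) * (n + 1) * (n + 2) / 3) := by
    have h3 : |(2 * U).im| ≤ ∑ k ∈ range (n + 1), s * (1 - q ^ 2) * |w.im| * (2 * (k : ℝ) - n) ^ 2 := by
      rw [h2, Complex.im_sum]
      refine (Finset.abs_sum_le_sum_abs _ _).trans (Finset.sum_le_sum fun k hk => ?_)
      have h4 := pair_im_int hq0 hq1 hw hs0 (2 * (k : ℤ) - n)
        ((pow_le_pow_right₀ hp1 (he k hk)).trans hn)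
      rwa [hcast] at h4
    rw [← Finset.mul_sum, hN] at h3
    have h5 : (2 * U).im = 2 * U.im := by simp
    rw [h5, abs_mul, abs_two] at h3
    exact h3
  have hre : ((n : ℝ) + 1) - (1 - w.re) * ((n : ℝ) * (n + 1) * (n + 2) / 3) ≤ U.re := by
    have h3 : ∑ k ∈ range (n + 1), 2 * (1 - (2 * (k : ℝ) - n) ^ 2 * (1 - w.re)) ≤ (2 * U).re := by
      rw [h2, Complex.re_sum]
      refine Finset.sum_le_sum fun k hk => ?_
      have h6 : ((2 * (k : ℤ) - n : ℤ) : ℝ) ^ 2 ≤ ((n : ℝ) + 1) ^ 2 := by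
        have h7 : |((2 * (k : ℤ) - n : ℤ) : ℝ)| ≤ (n : ℝ) + 1 := by
          have h8 := he k hk
          have h9 : ((2 * (k : ℤ) - n).natAbs : ℝ) ≤ n := by exact_mod_cast h8
          rw [Nat.cast_natAbs, Int.cast_abs] at h9
          linarith
        rw [← sq_abs]
        exact pow_le_pow_left₀ (abs_nonneg _) h7 2
      have h4 := pair_re_int hq0 hw (2 * (k : ℤ) - n) (by nlinarith)
      rwa [hcast] at h4
    rw [← Finset.mul_sum, Finset.sum_sub_distrib, ← Finset.sum_mul, hN] at h3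
    have h5 : (2 * U).re = 2 * U.re := by simp
    rw [h5] at h3
    simp only [Finset.sum_const, Finset.card_range, nsmul_eq_mul, mul_one] at h3
    push_cast at h3
    linarith
  obtain ⟨r, hr⟩ : ∃ r : ℝ, r = (n : ℝ) + 1 := ⟨_, rfl⟩
  have hr1 : 1 ≤ r := by rw [hr]; linarith [(Nat.cast_nonneg n : (0 : ℝ) ≤ n)]
  have eN : (n : ℝ) * (n + 1) * (n + 2) / 3 = r * (r ^ 2 - 1) / 3 := by rw [hr]; ring
  rw [eN] at him hre
  rw [← hr] at hσ hre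
  have hsq : ‖U‖ ^ 2 = U.re ^ 2 + U.im ^ 2 := by
    rw [Complex.sq_norm, Complex.normSq_apply]; ring
  have hx : r ^ 2 * (1 - w.re) ≤ 3 / 8 := by nlinarith
  have hr2 : 0 ≤ r ^ 2 - 1 := by nlinarith
  -- lower bound of the square
  have hlow : (r ^ 2 - 1) * (1 - 2 / 3 * (r ^ 2 * (1 - w.re))) ≤ ‖U‖ ^ 2 - 1 := by
    have h3 : 0 ≤ r - (1 - w.re) * (r * (r ^ 2 - 1) / 3) := by
      have h4 : (1 - w.re) * (r * (r ^ 2 - 1) / 3) ≤ r * ((r ^ 2 * (1 - w.re)) / 3) := by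
        nlinarith [mul_nonneg hc0 (zero_le_one.trans hr1)]
      nlinarith
    have h5 : (r - (1 - w.re) * (r * (r ^ 2 - 1) / 3)) ^ 2 ≤ U.re ^ 2 := pow_le_pow_left₀ h3 hre 2
    have h6 : (r - (1 - w.re) * (r * (r ^ 2 - 1) / 3)) ^ 2 =
        r ^ 2 - 2 / 3 * (r ^ 2 - 1) * (r ^ 2 * (1 - w.re)) +
          ((1 - w.re) * (r * (r ^ 2 - 1) / 3)) ^ 2 := by ring
    nlinarith [sq_nonneg U.im, sq_nonneg ((1 - w.re) * (r * (r ^ 2 - 1) / 3))]
  have hσ' : r * |w.im| ≤ 5 / 8 := by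
    have h7 : (r * |w.im|) ^ 2 ≤ 3 / 8 := by rw [mul_pow, sq_abs]; exact hσ
    nlinarith [mul_nonneg (zero_le_one.trans hr1) (abs_nonneg w.im)]
  have hs' : s ≤ 3 / 2 := by nlinarith
  have hq2 : 0 ≤ 1 - q ^ 2 := by nlinarith
  constructor
  · have h8 : 4 * q * |U.im| ≤ 4 * |U.im| := by nlinarith [abs_nonneg U.im]
    have h9 : 4 * |U.im| ≤ 2 * (s * (1 - q ^ 2) * |w.im| * (r * (r ^ 2 - 1) / 3)) := by linarith
    have h10 : 2 * (s * (1 - q ^ 2) * |w.im| * (r * (r ^ 2 - 1) / 3)) =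
        (1 - q ^ 2) * ((r ^ 2 - 1) * (2 / 3 * (s * (r * |w.im|)))) := by ring
    have h11 : s * (r * |w.im|) ≤ 3 / 2 * (5 / 8) :=
      mul_le_mul hs' hσ' (by positivity) (by norm_num)
    have h12 : (r ^ 2 - 1) * (2 / 3 * (s * (r * |w.im|))) ≤ ‖U‖ ^ 2 - 1 := by
      refine le_trans ?_ hlow
      exact mul_le_mul_of_nonneg_left (by linarith) hr2
    calc 4 * q * |U.im| ≤ (1 - q ^ 2) * ((r ^ 2 - 1) * (2 / 3 * (s * (r * |w.im|)))) := by linarith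
      _ ≤ _ := mul_le_mul_of_nonneg_left h12 hq2
  · have h13 : 0 ≤ (r ^ 2 - 1) * (1 - 2 / 3 * (r ^ 2 * (1 - w.re))) :=
      mul_nonneg hr2 (by linarith)
    linarith

end

end Pool.Agent.Helper80.LZ
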