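import Mathlib
import Pool.Agent.Helper80.LZ.Core

/-!
# The inequalities (R) and (I)

`q ^ 2 = ‖t‖`, `c k = ‖1 - t ^ k‖`, `r = n + 1`.
-/

set_option autoImplicit false

namespace Pool.Agent.Helper80.LZ

open Finset

/-- the inequality for the symmetric sum -/
theorem core_ineq {q : ℝ} (hq0 : 0 < q) (_hq1 : q < 1) {U : ℂ}
    (h1 : 4 * q * |U.im| ≤ (1 - q ^ 2) * (‖U‖ ^ 2 - 1)) (h2 : 1 ≤ ‖U‖ ^ 2) :
    2 * q * ‖U ^ 2 - 1‖ ≤ (1 + q ^ 2) * (‖U‖ ^ 2 - 1) := by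
  have e1 : ‖U ^ 2 - 1‖ ^ 2 = (‖U‖ ^ 2 - 1) ^ 2 + 4 * |U.im| ^ 2 := by
    rw [sq_norm_sub_one, Complex.sq_norm, Complex.normSq_apply, sq_abs]
    have a1 : (U ^ 2).re = U.re * U.re - U.im * U.im := by rw [sq, Complex.mul_re]
    have a2 : (U ^ 2).im = 2 * (U.re * U.im) := by rw [sq, Complex.mul_im]; ring
    rw [a1, a2]
    ring
  have h3 : 0 ≤ (1 + q ^ 2) * (‖U‖ ^ 2 - 1) := mul_nonneg (by positivity) (by linarith)
  refine le_of_sq_le_sq ?_ h3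
  have h4 : (4 * q * |U.im|) ^ 2 ≤ ((1 - q ^ 2) * (‖U‖ ^ 2 - 1)) ^ 2 :=
    pow_le_pow_left₀ (by positivity) h1 2
  rw [mul_pow, e1]
  nlinarith

/-- polar form of the square root -/
theorem exists_root (t : ℂ) (ht : t ≠ 0) : ∃ (q : ℝ) (w : ℂ), 0 < q ∧ ‖w‖ = 1 ∧ 0 ≤ w.re ∧
    t = ((q : ℂ) * w) ^ 2 := by
  obtain ⟨τ, hτ⟩ := IsAlgClosed.exists_pow_nat_eq t (n := 2) (by norm_num)
  have main : ∀ τ : ℂ, τ ^ 2 = t → 0 ≤ τ.re → ∃ (q : ℝ) (w : ℂ), 0 < q ∧ ‖w‖ = 1 ∧ 0 ≤ w.re ∧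
      t = ((q : ℂ) * w) ^ 2 := by
    intro τ hτ hre
    have h0 : τ ≠ 0 := by
      rintro rfl
      exact ht (by rw [← hτ]; simp)
    have hn : 0 < ‖τ‖ := norm_pos_iff.2 h0
    refine ⟨‖τ‖, ((‖τ‖⁻¹ : ℝ) : ℂ) * τ, hn, ?_, ?_, ?_⟩
    · rw [norm_mul, Complex.norm_real, Real.norm_of_nonneg (by positivity), inv_mul_cancel₀ hn.ne']
    · rw [Complex.re_ofReal_mul]
      positivity
    · rw [← mul_assoc, ← Complex.ofReal_mul, mul_inv_cancel₀ hn.ne', Complex.ofReal_one, one_mul, hτ]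
  rcases le_total 0 τ.re with h | h
  · exact main τ hτ h
  · exact main (-τ) (by rw [neg_sq, hτ]) (by simpa using h)

/-- **(R)** -/
theorem R_ineq (t : ℂ) (q : ℝ) (hq0 : 0 < q) (hq1 : q < 1) (hq : ‖t‖ = q ^ 2)
    (hk : ‖1 - t‖ ≤ 2 * (1 - q ^ 2)) (n : ℕ) (hn : 1 / 2 ≤ (q ^ 2) ^ (n + 1)) :
    2 * q * (‖1 - t ^ n‖ * ‖1 - t ^ (n + 2)‖) + (q ^ 2) ^ n * (1 + q ^ 2) * ‖1 - t‖ ^ 2 ≤
      (1 + q ^ 2) * ‖1 - t ^ (n + 1)‖ ^ 2 := by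
  have ht : t ≠ 0 := by
    rintro rfl
    rw [norm_zero] at hq
    have : 0 < q ^ 2 := by positivity
    linarith
  obtain ⟨q', w, hq'0, hw, hc, htw⟩ := exists_root t ht
  have hqq : q' = q := by
    rw [htw, norm_pow, norm_mul, Complex.norm_real, hw, mul_one, Real.norm_of_nonneg hq'0.le] at hq
    exact (sq_eq_sq₀ hq'0.le hq0.le).1 hq
  subst hqq
  have hri := unit_re_im hw
  -- the angle
  have hσ0 : 4 * q' ^ 2 * w.im ^ 2 ≤ 3 * (1 - q' ^ 2) ^ 2 := by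
    have h1 : ‖1 - t‖ ^ 2 ≤ (2 * (1 - q' ^ 2)) ^ 2 := pow_le_pow_left₀ (norm_nonneg _) hk 2
    have h2 : ‖1 - t‖ ^ 2 = (1 - q' ^ 2) ^ 2 + 4 * q' ^ 2 * w.im ^ 2 := by
      rw [norm_sub_rev, sq_norm_sub_one]
      have h3 : t = ((q' ^ 2 : ℝ) : ℂ) * w ^ 2 := by rw [htw]; push_cast; ring
      have h4 : t.re = q' ^ 2 * (w.re ^ 2 - w.im ^ 2) := by
        rw [h3, Complex.re_ofReal_mul, sq w, Complex.mul_re]; ring
      have h5 : t.im = q' ^ 2 * (2 * (w.re * w.im)) := by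
        rw [h3, Complex.im_ofReal_mul, sq w, Complex.mul_im]; ring
      rw [h4, h5]
      have h6 : w.re ^ 2 = 1 - w.im ^ 2 := by linarith
      have h7 : (q' ^ 2 * (2 * (w.re * w.im))) ^ 2 = 4 * q' ^ 4 * (w.re ^ 2) * w.im ^ 2 := by ring
      rw [h7, h6]
      ring
    rw [h2] at h1
    linarith
  have hpow : ((1 / q') ^ (n + 1)) ^ 2 ≤ 2 := by
    have h1 : ((1 / q') ^ (n + 1)) ^ 2 * (q' ^ 2) ^ (n + 1) = 1 := by
      rw [← pow_mul, ← pow_mul, mul_comm (n + 1) 2, ← mul_pow, one_div_mul_cancel hq'0.ne', one_pow]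
    have h2 : 0 < ((1 / q') ^ (n + 1)) ^ 2 := by positivity
    nlinarith
  have hp1 : 1 ≤ 1 / q' := by rw [le_div_iff₀ hq'0]; linarith
  have hσ : ((n : ℝ) + 1) ^ 2 * w.im ^ 2 ≤ 3 / 8 := by
    have h1 := pow_sub_ge (p := 1 / q') (q := q') (by positivity) hq'0
      (one_div_mul_cancel hq'0.ne') (hq1.le.trans hp1) (n + 1)
    obtain ⟨P, hP⟩ : ∃ P, P = (1 / q') ^ (n + 1) := ⟨_, rfl⟩
    have hPQ : P * q' ^ (n + 1) = 1 := by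
      rw [hP, ← mul_pow, one_div_mul_cancel hq'0.ne', one_pow]
    have hP1 : 1 ≤ P := by rw [hP]; exact one_le_pow₀ hp1
    rw [← hP] at h1 hpow
    have hQ0 : 0 < q' ^ (n + 1) := by positivity
    obtain ⟨Q, hQ⟩ : ∃ Q, Q = q' ^ (n + 1) := ⟨_, rfl⟩
    rw [← hQ] at h1 hPQ hQ0
    have h2 : (P - Q) ^ 2 ≤ 1 / 2 := by
      have : (P - Q) ^ 2 * P ^ 2 = (P ^ 2 - 1) ^ 2 := by
        have : (P - Q) * P = P ^ 2 - 1 := by
          have : (P - Q) * P = P ^ 2 - P * Q := by ring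
          rw [this, hPQ]
        rw [← mul_pow, this]
      have hP2 : 1 ≤ P ^ 2 := one_le_pow₀ hP1
      have h5 : (P ^ 2 - 1) ^ 2 ≤ 1 / 2 * P ^ 2 := by nlinarith
      have h6 : (P - Q) ^ 2 * P ^ 2 ≤ 1 / 2 * P ^ 2 := by linarith
      exact le_of_mul_le_mul_right h6 (by positivity)
    push_cast at h1
    have h3 : 0 ≤ ((n : ℝ) + 1) * (1 / q' - q') :=
      mul_nonneg (by positivity) (by linarith)
    have h4 : (((n : ℝ) + 1) * (1 / q' - q')) ^ 2 ≤ 1 / 2 := (pow_le_pow_left₀ h3 h1 2).trans h2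
    have h5 : (((n : ℝ) + 1) * (1 / q' - q')) ^ 2 * q' ^ 2 = ((n : ℝ) + 1) ^ 2 * (1 - q' ^ 2) ^ 2 := by
      field_simp
    have h6 : ((n : ℝ) + 1) ^ 2 * (1 - q' ^ 2) ^ 2 ≤ 1 / 2 * q' ^ 2 := by
      rw [← h5]
      exact mul_le_mul_of_nonneg_right h4 (by positivity)
    have h7 : (((n : ℝ) + 1) ^ 2 * w.im ^ 2) * (4 * q' ^ 2) ≤ 3 / 8 * (4 * q' ^ 2) := by
      have h8 := mul_le_mul_of_nonneg_left hσ0 (sq_nonneg ((n : ℝ) + 1))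
      nlinarith
    exact le_of_mul_le_mul_right h7 (by positivity)
  obtain ⟨s, hs⟩ : ∃ s, s = Real.sqrt 2 := ⟨_, rfl⟩
  have hs0 : 0 < s := by rw [hs]; positivity
  have hs2 : s ^ 2 = 2 := by rw [hs]; exact Real.sq_sqrt (by norm_num)
  have hpn : (1 / q') ^ n ≤ s := by
    have h1 : (1 / q') ^ n ≤ (1 / q') ^ (n + 1) := pow_le_pow_right₀ hp1 (Nat.le_succ n)
    have h2 : (1 / q') ^ (n + 1) ≤ s := by
      refine le_of_sq_le_sq ?_ hs0.le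
      rw [hs2]
      exact hpow
    linarith
  obtain ⟨b1, b2⟩ := US_bounds hq'0 hq1 hw hs0 hs2 hc n hpn hσ
  have key := core_ineq hq'0 hq1 b1 b2
  obtain ⟨τ, hτ⟩ : ∃ τ : ℂ, τ = (q' : ℂ) * w := ⟨_, rfl⟩
  rw [← hτ] at key htw
  have hτ0 : τ ≠ 0 := by
    rintro h
    rw [h] at htw
    exact ht (by rw [htw]; simp)
  have hτn : ‖τ‖ = q' := by
    rw [hτ, norm_mul, Complex.norm_real, hw, mul_one, Real.norm_of_nonneg hq'0.le]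
  obtain ⟨U, hU⟩ : ∃ U, U = US τ n := ⟨_, rfl⟩
  rw [← hU] at key
  -- the geometric sum
  have hgeo : 1 - t ^ (n + 1) = (1 - t) * (τ ^ n * U) := by
    have h1 : τ ^ n * U = ∑ k ∈ range (n + 1), t ^ k := by
      rw [hU, US, Finset.mul_sum]
      refine Finset.sum_congr rfl fun k _ => ?_
      rw [htw, ← pow_mul, ← zpow_natCast τ n, ← zpow_add₀ hτ0, ← zpow_natCast τ (2 * k)]
      congr 1
      push_cast
      ring
    rw [h1, mul_comm, geom_sum_mul_neg]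
  have hprod : (1 - t ^ n) * (1 - t ^ (n + 2)) = (1 - t) ^ 2 * (t ^ n * (U ^ 2 - 1)) := by
    have h1 : (1 - t ^ n) * (1 - t ^ (n + 2)) = (1 - t ^ (n + 1)) ^ 2 - t ^ n * (1 - t) ^ 2 := by ring
    have h2 : t ^ n = (τ ^ n) ^ 2 := by rw [htw]; ring
    rw [h1, hgeo]
    have h3 : ((1 - t) * (τ ^ n * U)) ^ 2 = (1 - t) ^ 2 * ((τ ^ n) ^ 2 * U ^ 2) := by ring
    rw [h3, h2]
    ring
  have n1 : ‖1 - t ^ n‖ * ‖1 - t ^ (n + 2)‖ = ‖1 - t‖ ^ 2 * ((q' ^ 2) ^ n * ‖U ^ 2 - 1‖) := by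
    rw [← norm_mul, hprod, norm_mul, norm_mul, norm_pow, norm_pow, hq]
  have n2 : ‖1 - t ^ (n + 1)‖ ^ 2 = ‖1 - t‖ ^ 2 * ((q' ^ 2) ^ n * ‖U‖ ^ 2) := by
    rw [hgeo, norm_mul, norm_mul, norm_pow, hτn]
    ring
  rw [n1, n2]
  have h9 : 0 ≤ ‖1 - t‖ ^ 2 * (q' ^ 2) ^ n := by positivity
  nlinarith [mul_le_mul_of_nonneg_left key h9]

end Pool.Agent.Helper80.LZ
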