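import Mathlib
import Pool.Agent.Helper80.LZ.Chain

/-!
# The inequality (R) with `ρ = ‖t‖`, and the sign of the leading coefficient
-/

set_option autoImplicit false

namespace Pool.Agent.Helper80.LZ

theorem R {t : ℂ} (h0 : t ≠ 0) (h1 : ‖t‖ < 1) (hk : ‖1 - t‖ ≤ 2 * (1 - ‖t‖)) {r : ℕ} (hr : 1 ≤ r)
    (hh : 1 / 2 ≤ ‖t‖ ^ r) :
    2 * Real.sqrt ‖t‖ * (‖1 - t ^ (r - 1)‖ * ‖1 - t ^ (r + 1)‖) +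
      ‖t‖ ^ (r - 1) * (1 + ‖t‖) * ‖1 - t‖ ^ 2 ≤ (1 + ‖t‖) * ‖1 - t ^ r‖ ^ 2 := by
  obtain ⟨n, rfl⟩ : ∃ n, r = n + 1 := ⟨r - 1, by omega⟩
  have hp : 0 < ‖t‖ := norm_pos_iff.2 h0
  have hq : Real.sqrt ‖t‖ ^ 2 = ‖t‖ := Real.sq_sqrt hp.le
  have hq0 : 0 < Real.sqrt ‖t‖ := Real.sqrt_pos.2 hp
  have hq1 : Real.sqrt ‖t‖ < 1 := by
    rw [Real.sqrt_lt' one_pos]
    linarith
  have h := R_ineq t (Real.sqrt ‖t‖) hq0 hq1 hq.symm (by rw [hq]; exact hk) n (by rw [hq]; exact hh)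
  rw [hq] at h
  have e1 : n + 1 - 1 = n := by omega
  rw [e1]
  exact h

/-- the numbers `c` are positive -/
theorem c_pos {t : ℂ} (h1 : ‖t‖ < 1) {r : ℕ} (hr : 1 ≤ r) : 0 < ‖1 - t ^ r‖ := by
  rw [norm_pos_iff, sub_ne_zero]
  intro h
  have h2 : ‖t ^ r‖ = 1 := by rw [← h, norm_one]
  rw [norm_pow] at h2
  have h3 := pow_lt_one₀ (norm_nonneg t) h1 (by omega : r ≠ 0)
  linarith

/-- `c_{r-1} c_{r+1} ≥ c_r ^ 2 - ρ ^ (r-1) c_1 ^ 2` -/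
theorem prod_ge {t : ℂ} {r : ℕ} (hr : 1 ≤ r) :
    ‖1 - t ^ r‖ ^ 2 - ‖t‖ ^ (r - 1) * ‖1 - t‖ ^ 2 ≤ ‖1 - t ^ (r - 1)‖ * ‖1 - t ^ (r + 1)‖ := by
  obtain ⟨n, rfl⟩ : ∃ n, r = n + 1 := ⟨r - 1, by omega⟩
  have e1 : n + 1 - 1 = n := by omega
  rw [e1]
  have h1 : (1 - t ^ (n + 1)) ^ 2 - t ^ n * (1 - t) ^ 2 = (1 - t ^ n) * (1 - t ^ (n + 1 + 1)) := by ring
  rw [← norm_mul, ← h1, ← norm_pow, ← norm_pow, ← norm_pow, ← norm_mul]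
  exact norm_sub_norm_le _ _

end Pool.Agent.Helper80.LZ
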